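import Pool.Agent.Helper95.HV.Stmts
import Pool.Agent.Helper14.LN.MLL

/-! Row MLZ: the localized Morawetz inequality for charges at most `z`. -/

set_option autoImplicit false

namespace Pool.Agent.Helper7.HV

open MeasureTheory Filter Pool.Agent.Helper95.PW Pool.Agent.Helper95.LN Pool.Agent.Helper95.CF
open Pool.Agent.Helper95.HV Pool.Agent.Helper14.LN

/-- a pointwise lower bound, integrated -/
theorem mlz_vir {n : ℕ} {C1 C0 z : ℝ} {u : Wf n} {F W V : Cf n → ℝ}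
    (hV : ∀ᵐ x : Cf n, -(C1 * (C0 * F x + z * W x)) ≤ V x)
    (i1 : ∀ s, Integrable (fun x : Cf n => F x * u s x ^ 2))
    (i2 : ∀ s, Integrable (fun x : Cf n => W x * u s x ^ 2))
    (i3 : ∀ s, Integrable (fun x : Cf n => V x * u s x ^ 2)) :
    -(C1 * (C0 * (∑ s, ∫ x, F x * u s x ^ 2) + z * ∑ s, ∫ x, W x * u s x ^ 2)) ≤
      ∑ s, ∫ x, V x * u s x ^ 2 := by
  have e1 : C1 * (C0 * (∑ s, ∫ x, F x * u s x ^ 2) + z * ∑ s, ∫ x, W x * u s x ^ 2) =
      ∑ s, ∫ x, C1 * (C0 * (F x * u s x ^ 2) + z * (W x * u s x ^ 2)) := by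
    rw [Finset.mul_sum, Finset.mul_sum, ← Finset.sum_add_distrib, Finset.mul_sum]
    refine Finset.sum_congr rfl fun s _ => ?_
    rw [integral_const_mul, integral_add ((i1 s).const_mul _) ((i2 s).const_mul _),
      integral_const_mul, integral_const_mul]
  rw [e1, ← Finset.sum_neg_distrib]
  refine Finset.sum_le_sum fun s _ => ?_
  rw [← integral_neg]
  have j1 : Integrable (fun x : Cf n => C1 * (C0 * (F x * u s x ^ 2) + z * (W x * u s x ^ 2))) :=
    (((i1 s).const_mul _).add ((i2 s).const_mul _)).const_mul _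
  refine integral_mono_ae j1.neg (i3 s) ?_
  filter_upwards [hV] with x hx
  have h := mul_le_mul_of_nonneg_right hx (sq_nonneg (u s x))
  refine le_trans (le_of_eq ?_) h
  ring

theorem MLZ (h1 : ST_MGS) (h2 : ST_MGX) (h3 : ST_AED) (h4 : ST_KID) (h5 : ST_VID) (h6 : ST_VIRZ)
    (h7 : ST_LOCY) (h8 : ST_PGB) (h9 : ST_HLOC) (h10 : ST_PAN) (h11 : ST_STB) (h12 : ST_INTM) :
    ST_MLZ := by
  intro d hd hd1
  obtain ⟨A, hA1, hA⟩ := h1 d hd
  obtain ⟨A', hA'1, hA'⟩ := h2 d hd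
  obtain ⟨C1, hC1, hV⟩ := h6 d A hd hd1 hA1
  obtain ⟨C0, C2, hC0, hC2, hLY⟩ := h7 d hd hd1
  obtain ⟨C3, hC3, hH⟩ := h9
  have hA0 : 0 ≤ A := by linarith
  have hA'0 : 0 ≤ A' := by linarith
  obtain ⟨K, hK⟩ : ∃ K, K = 2 * A + 2 * A' + 2 * C1 * C3 + 4 * C1 * C3 / d ^ 2 := ⟨_, rfl⟩
  have hK0 : 0 ≤ K := by rw [hK]; positivity
  obtain ⟨C, hC⟩ : ∃ C, C = K + 2 * C1 * C2 + C2 := ⟨_, rfl⟩
  have hCpos : 0 < C := by rw [hC]; positivity
  refine ⟨C, hCpos, fun z E B0 n M X Z hD hM => ?_⟩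
  have hz1 := hD.z1
  have hz0 : 0 ≤ z := by linarith
  have hX := hD.sep
  obtain ⟨P, hP⟩ : ∃ P, P = 7 * A ^ 2 * n * (|B0| + C3 * (|B0| + n * 2 / d ^ 2)) := ⟨_, rfl⟩
  have hP0 : 0 ≤ P := by rw [hP]; positivity
  refine ⟨2 * z * Real.sqrt P + 1, by positivity, fun u hu hsq hkB s hs hsd => ?_⟩
  have hg := hA M X s hX hs hsd
  have hbi := hA' M X s hX hs hsd
  obtain ⟨g, hgg⟩ : ∃ g, g = mG X d s := ⟨_, rfl⟩
  rw [← hgg] at hg hbi
  have hw : Sm (fun s => Pg g (u s)) := (h11 n g u hg.sm hu).2.1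
  have hkin0 : 0 ≤ kin u := by
    unfold kin Pool.Agent.Helper95.PW.sq
    exact Finset.sum_nonneg fun k _ => Finset.sum_nonneg fun i _ => Finset.sum_nonneg fun s _ =>
      integral_nonneg fun x => sq_nonneg _
  have hsq0 : 0 ≤ Pool.Agent.Helper95.PW.sq u := by
    unfold Pool.Agent.Helper95.PW.sq
    exact Finset.sum_nonneg fun s _ => integral_nonneg fun x => sq_nonneg _
  have hn0 : (0 : ℝ) ≤ n := Nat.cast_nonneg n
  have hHL := hH n M X d u hd hX hu
  have hB := mll_bi hs hg.sm hbi hu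
  have hKi := h4 n g u hg.sm hu
  have hHs := MLOC_hess hg.sm hg.hs hu
  have hR := mll_res h10 h12 X Z E hg.sm hu hw
  obtain ⟨hvd1, hvd2⟩ := h5 n M X Z g u hg.sm hg.cs hu
  obtain ⟨hp, hq1⟩ := hLY z n M X Z hD
  obtain ⟨hY0, hYi, hYb⟩ := hq1 u hu hsq
  have hTV := mlz_vir (n := n) (C1 := C1) (C0 := C0) (z := z) (u := u)
    (F := fun x => Vc X Z x + C0 * (z ^ 2 * M + z * ∑ k, near1 X d (x k)))
    (W := fun x => ∑ k, near2 X d (x k)) (V := fun x => Vir X Z g x) (by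
      filter_upwards [h3 n M X] with x hx
      have a1 := hV z n M X Z g x hD hg.sm hg.outd hg.d1 hg.hs hx
      have a2 := (hp x hx).2.2
      refine le_trans ?_ a1
      have a3 := mul_le_mul_of_nonneg_left
        (add_le_add_left a2 (z * ∑ k, near2 X d (x k))) hC1.le
      linarith) hYi hHL.1 hvd1
  have hcs := INL_cauchy hw (fun s => Pool.Agent.Helper31.PMMOR.hmML h12 X Z E (hu s).1 (hu s).2)
  have hpg := h8 n M X d A g u hd hX hA0 hg.sm hg.d1 hg.lp hu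
  obtain ⟨R, hRd⟩ : ∃ R, R = ∑ s, ∫ x, Pg g (u s) x * (hmM X Z (u s) x - E * u s x) := ⟨_, rfl⟩
  have hRabs : R ≤ Real.sqrt P * Real.sqrt (resM X Z E u) := by
    rw [hRd]
    refine (le_abs_self _).trans (hcs.trans ?_)
    refine mul_le_mul_of_nonneg_right (Real.sqrt_le_sqrt ?_) (Real.sqrt_nonneg _)
    refine hpg.trans ?_
    rw [hP]
    have b1 : kin u ≤ |B0| := hkB.trans (le_abs_self _)
    have b2 : one (near2 X d) u ≤ C3 * (|B0| + n * 2 / d ^ 2) := by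
      refine hHL.2.trans (mul_le_mul_of_nonneg_left ?_ hC3.le)
      have : (n : ℝ) * Pool.Agent.Helper95.PW.sq u / d ^ 2 ≤ n * 2 / d ^ 2 := by gcongr
      linarith
    have b3 : 0 ≤ 7 * A ^ 2 * (n : ℝ) := by positivity
    exact mul_le_mul_of_nonneg_left (by linarith) b3
  have hmor : ∑ j, Z j * one (fun y => mor s (y - X j)) u ≤
      z * ∑ j, one (fun y => mor s (y - X j)) u := by
    rw [Finset.mul_sum]
    exact Finset.sum_le_sum fun j _ => mul_le_mul_of_nonneg_right (hD.le j)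
      (MLOC_one_nonneg (fun y => MLOC_mor_nonneg s _) u)
  have hN1 : 0 ≤ one (near1 X d) u := MLOC_one_nonneg (fun y => by
    unfold near1
    refine Finset.sum_nonneg fun j _ => ?_
    have : 0 ≤ nr (y - X j) := Real.sqrt_nonneg _
    split_ifs <;> positivity) u
  have hYY : YY C2 d z X Z u ≤ YY C d z X Z u := by
    unfold YY
    have a1 : 0 ≤ z ^ 2 * (M : ℝ) + z * one (near1 X d) u := by positivity
    have a2 : C2 ≤ C := by
      rw [hC]
      have : 0 ≤ 2 * C1 * C2 := by positivity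
      linarith
    have := mul_le_mul_of_nonneg_right a2 a1
    linarith
  obtain ⟨Y, hY⟩ : ∃ Y, Y = YY C2 d z X Z u := ⟨_, rfl⟩
  obtain ⟨Y', hY'⟩ : ∃ Y', Y' = YY C d z X Z u := ⟨_, rfl⟩
  obtain ⟨VR, hVR⟩ : ∃ VR, VR = ∑ s, ∫ x, Vir X Z g x * u s x ^ 2 := ⟨_, rfl⟩
  obtain ⟨Q, hQ⟩ : ∃ Q, Q = ∑ s, ∫ x, (Vc X Z x + C0 * (z ^ 2 * M + z * ∑ k, near1 X d (x k))) *
    u s x ^ 2 := ⟨_, rfl⟩
  obtain ⟨N, hN⟩ : ∃ N, N = one (near2 X d) u := ⟨_, rfl⟩
  obtain ⟨L, hL⟩ : ∃ L, L = one (lap (lap g)) u := ⟨_, rfl⟩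
  obtain ⟨q, hq⟩ : ∃ q, q = Pool.Agent.Helper95.PW.sq u := ⟨_, rfl⟩
  have hNd : ∑ s, ∫ x, (∑ k, near2 X d (x k)) * u s x ^ 2 = N := by
    rw [hN]
    rfl
  rw [← hQ, hNd, ← hVR] at hTV
  rw [← hQ, ← hY] at hYb
  rw [← hY] at hY0 hYY
  rw [← hY'] at hYY
  rw [← hRd, hvd2, ← hVR, hKi, ← hL] at hR
  rw [← hL, ← hq] at hB
  have hHL2 := hHL.2
  rw [← hN, ← hq] at hHL2
  rw [← hq] at hsq hsq0
  rw [← hY']
  have hqn : (n : ℝ) * q ≤ 2 * n := by nlinarith
  have hN2 : N ≤ C3 * kin u + 2 * C3 / d ^ 2 * n := by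
    refine (hHL2.trans (mul_le_mul_of_nonneg_left (add_le_add_right
      (div_le_div_of_nonneg_right hqn (by positivity : (0 : ℝ) ≤ d ^ 2)) _) hC3.le)).trans
      (le_of_eq ?_)
    ring
  have hVRb : -VR ≤ C1 * (C2 * Y) + C1 * (z * N) := by
    have a1 := mul_le_mul_of_nonneg_left hYb hC1.le
    have a2 : C1 * (C0 * Q + z * N) = C1 * (C0 * Q) + C1 * (z * N) := by ring
    linarith
  have hzN : C1 * (z * N) ≤ C1 * (z * (C3 * kin u + 2 * C3 / d ^ 2 * n)) :=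
    mul_le_mul_of_nonneg_left (mul_le_mul_of_nonneg_left hN2 hz0) hC1.le
  have hsum : ∑ j, one (fun y => mor s (y - X j)) u ≤ 2 * R + (K * (z * kin u + z * n) +
      2 * C1 * C2 * Y) := by
    have c1 : A' * (n * q) ≤ A' * (2 * n) := mul_le_mul_of_nonneg_left hqn hA'0
    have c2 : 2 * A * kin u ≤ 2 * A * (z * kin u) := by
      have : kin u ≤ z * kin u := by nlinarith
      exact mul_le_mul_of_nonneg_left this (by positivity)
    have c3 : 2 * A' * (n : ℝ) ≤ 2 * A' * (z * n) := by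
      have : (n : ℝ) ≤ z * n := by nlinarith
      exact mul_le_mul_of_nonneg_left this (by positivity)
    have c4 : K * (z * kin u + z * n) = 2 * A * (z * kin u) + 2 * A' * (z * n) +
        2 * (C1 * (z * (C3 * kin u + 2 * C3 / d ^ 2 * n))) +
        (2 * A * (z * n) + 2 * A' * (z * kin u) + 2 * C1 * C3 * (z * n) +
          4 * C1 * C3 / d ^ 2 * (z * kin u)) := by
      rw [hK]
      ring
    have c5 : 0 ≤ 2 * A * (z * n) + 2 * A' * (z * kin u) + 2 * C1 * C3 * (z * n) +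
          4 * C1 * C3 / d ^ 2 * (z * kin u) := by positivity
    linarith
  have hfin : K * (z * kin u + z * n) + 2 * C1 * C2 * Y ≤ C * (z * kin u + z * n + Y') := by
    have a1 : K ≤ C := by
      rw [hC]
      have : 0 ≤ 2 * C1 * C2 := by positivity
      linarith
    have a2 : 2 * C1 * C2 ≤ C := by
      rw [hC]
      linarith
    have a3 : 0 ≤ z * kin u + z * (n : ℝ) := by positivity
    have a4 := mul_le_mul_of_nonneg_right a1 a3
    have a5 := mul_le_mul_of_nonneg_right a2 hY0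
    have a6 := mul_le_mul_of_nonneg_left hYY hCpos.le
    have a7 : C * (z * kin u + z * n + Y') = C * (z * kin u + z * n) + C * Y' := by ring
    linarith
  have hz2 := mul_le_mul_of_nonneg_left (hsum.trans (add_le_add_right hfin _)) hz0
  have hR2 := mul_le_mul_of_nonneg_left hRabs (mul_nonneg zero_le_two hz0)
  have hres0 := Real.sqrt_nonneg (resM X Z E u)
  refine (hmor.trans hz2).trans ?_
  have e5 : z * (2 * R + C * (z * kin u + z * n + Y')) =
      2 * z * R + C * z * (z * kin u + z * n + Y') := by ring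
  have e6 : (2 * z * Real.sqrt P + 1) * Real.sqrt (resM X Z E u) =
      2 * z * (Real.sqrt P * Real.sqrt (resM X Z E u)) + Real.sqrt (resM X Z E u) := by ring
  rw [e5, e6]
  linarith

end Pool.Agent.Helper7.HV
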